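import Pool.Agent.MWI.StmtsE

/-! # Row SEP of squad MWI: the names are separated and cross -/

namespace Pool.Agent.MWI.H30

open Pool.Agent.MWI

theorem step (p : ℕ → Prop) : ∀ (x0 : List ℕ), (∀ c ∈ x0, ¬ p c) → ∀ (a : ℕ) (W A B : List ℕ)
    (x : ℕ), p x → A ++ x :: B = x0 ++ a :: W →
    (A = x0 ∧ x = a ∧ B = W) ∨ ∃ A', W = A' ++ x :: B := by
  intro x0
  induction x0 with
  | nil =>
    intro _ a W A B x hx h
    cases A with
    | nil =>
      simp only [List.nil_append, List.cons.injEq] at h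
      exact Or.inl ⟨rfl, h.1, h.2⟩
    | cons c A' =>
      simp only [List.nil_append, List.cons_append, List.cons.injEq] at h
      exact Or.inr ⟨A', h.2.symm⟩
  | cons c x0' ih =>
    intro h0 a W A B x hx h
    cases A with
    | nil =>
      simp only [List.nil_append, List.cons_append, List.cons.injEq] at h
      exact absurd hx (h.1 ▸ h0 c List.mem_cons_self)
    | cons c' A' =>
      simp only [List.cons_append, List.cons.injEq] at h
      rcases ih (fun d hd => h0 d (List.mem_cons_of_mem _ hd)) a W A' B x hx h.2 with h1 | h1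
      · left
        exact ⟨by rw [h.1, h1.1], h1.2.1, h1.2.2⟩
      · right
        exact h1

theorem noadj (p : ℕ → Prop) (x0 x1 x2 x3 x4 : List ℕ) (a b c d : ℕ)
    (h0 : ∀ q ∈ x0, ¬ p q) (h1 : ∀ q ∈ x1, ¬ p q) (h2 : ∀ q ∈ x2, ¬ p q) (h3 : ∀ q ∈ x3, ¬ p q)
    (h4 : ∀ q ∈ x4, ¬ p q) (n1 : x1 ≠ []) (n2 : x2 ≠ []) (n3 : x3 ≠ []) (A B : List ℕ) (x y : ℕ)
    (hx : p x) (hy : p y)
    (h : A ++ x :: y :: B = x0 ++ a :: (x1 ++ b :: (x2 ++ c :: (x3 ++ d :: x4)))) : False := by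
  rcases step p x0 h0 a _ A (y :: B) x hx h with ⟨_, _, h⟩ | ⟨A1, h⟩
  · cases x1 with
    | nil => exact n1 rfl
    | cons e x1' =>
      simp only [List.cons_append, List.cons.injEq] at h
      exact h1 e List.mem_cons_self (h.1 ▸ hy)
  rcases step p x1 h1 b _ A1 (y :: B) x hx h.symm with ⟨_, _, h⟩ | ⟨A2, h⟩
  · cases x2 with
    | nil => exact n2 rfl
    | cons e x2' =>
      simp only [List.cons_append, List.cons.injEq] at h
      exact h2 e List.mem_cons_self (h.1 ▸ hy)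
  rcases step p x2 h2 c _ A2 (y :: B) x hx h.symm with ⟨_, _, h⟩ | ⟨A3, h⟩
  · cases x3 with
    | nil => exact n3 rfl
    | cons e x3' =>
      simp only [List.cons_append, List.cons.injEq] at h
      exact h3 e List.mem_cons_self (h.1 ▸ hy)
  rcases step p x3 h3 d _ A3 (y :: B) x hx h.symm with ⟨_, _, h⟩ | ⟨A4, h⟩
  · exact h4 y (h ▸ List.mem_cons_self) hy
  · exact h4 y (h ▸ by simp) hy

theorem unq (a : ℕ) (u1 u2 v1 v2 : List ℕ) (h1 : a ∉ u1) (h2 : a ∉ u2)
    (h : u1 ++ a :: v1 = u2 ++ a :: v2) : u1 = u2 ∧ v1 = v2 := by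
  rcases step (fun c => c = a) u2 (fun c hc e => h2 (e ▸ hc)) a v2 u1 v1 a rfl h with h3 | ⟨A', h3⟩
  · exact ⟨h3.1, h3.2.2⟩
  · rcases step (fun c => c = a) u1 (fun c hc e => h1 (e ▸ hc)) a v1 u2 v2 a rfl h.symm with
      h4 | ⟨A'', h4⟩
    · exact ⟨h4.1.symm, h4.2.2.symm⟩
    · have e1 := congrArg List.length h3
      have e2 := congrArg List.length h4
      simp only [List.length_append, List.length_cons] at e1 e2
      omega

theorem cnt_idx (m i k : ℕ) (hi : i < m) (hk : k < 7) : (idx m).count (7 * i + k) = 1 := by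
  have hnd : (idx m).Nodup := by
    unfold idx
    rw [List.nodup_flatMap]
    refine ⟨fun x _ => ?_, ?_⟩
    · unfold ci
      exact (List.nodup_range).map (fun a b h => by simpa using h)
    · refine List.Nodup.pairwise_of_forall_ne (List.nodup_range) ?_
      intro a ha b hb hab
      simp only [Function.onFun, ci]
      intro x hx1 hx2
      simp only [List.mem_map, List.mem_range] at ha hb hx1 hx2
      obtain ⟨i1, _, e1⟩ := hx1
      obtain ⟨i2, _, e2⟩ := hx2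
      omega
  refine List.count_eq_one_of_mem hnd ?_
  unfold idx ci
  simp only [List.mem_flatMap, List.mem_map, List.mem_range]
  exact ⟨k, hk, i, hi, rfl⟩

theorem cnt_zz (L : List ℕ) (E : ℕ) : (zz L).count (3 * E + 2) = L.count E := by
  induction L with
  | nil => rfl
  | cons a L ih =>
    unfold zz at ih ⊢
    rw [List.map_cons, List.count_cons, List.count_cons, ih]
    by_cases h : a = E
    · subst h; simp
    · have : ¬ (3 * a + 2 = 3 * E + 2) := by omega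
      simp [h]

theorem cnt_zz0 (L : List ℕ) (j : ℕ) : (zz L).count (3 * j) = 0 := by
  rw [List.count_eq_zero]
  unfold zz
  simp only [List.mem_map, not_exists, not_and]
  intro x _ h
  omega

theorem sep (hp : ParStmt) (hc : CvfStmt) : SepStmt := by
  intro P Q m s e w M Y hm F
  have cntn : ∀ j < 3, M.count (3 * j) = 2 := by
    intro j hj
    rw [F.pM.count_eq]
    have h0 := cnt_zz0 (idx m) j
    interval_cases j
    · simp only [List.count_cons]
      simp only [Nat.mul_zero] at h0 ⊢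
      rw [h0]; simp
    · simp only [List.count_cons]
      rw [h0]; simp
    · simp only [List.count_cons]
      rw [h0]; simp
  have cntz : ∀ i < m, ∀ k < 7, M.count (3 * (7 * i + k) + 2) = 1 := by
    intro i hi k hk
    rw [F.pM.count_eq]
    have h0 := cnt_zz (idx m) (7 * i + k)
    rw [cnt_idx m i k hi hk] at h0
    simp only [List.count_cons, h0]
    have e1 : ¬ (0 = 3 * (7 * i + k) + 2) := by omega
    have e2 : ¬ (3 = 3 * (7 * i + k) + 2) := by omega
    have e3 : ¬ (6 = 3 * (7 * i + k) + 2) := by omega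
    simp only [beq_iff_eq, e1, e2, e3, if_false]
  obtain ⟨c1, c2, c3, c4, c5⟩ := hc
  -- the crossing
  have key : ∀ j < 3, ∀ j' < 3, j ≠ j' →
      (∃ x0 x1 x2 x3 x4 : List ℕ,
        M = x0 ++ 3 * j :: (x1 ++ 3 * j' :: (x2 ++ 3 * j :: (x3 ++ 3 * j' :: x4))) ∧
        x1 ≠ [] ∧ x2 ≠ [] ∧ x3 ≠ []) ∨
      (∃ x0 x1 x2 x3 x4 : List ℕ,
        M = x0 ++ 3 * j' :: (x1 ++ 3 * j :: (x2 ++ 3 * j' :: (x3 ++ 3 * j :: x4))) ∧
        x1 ≠ [] ∧ x2 ≠ [] ∧ x3 ≠ []) := by
    intro j hj j' hj' hne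
    obtain ⟨r1, r2⟩ := c4 e j hj
    obtain ⟨r1', r2'⟩ := c4 e j' hj'
    have hrne : rl e j ≠ rl e j' := fun h => hne (r2 j' hj' h)
    obtain ⟨k', hk', k1, k2⟩ := c3 s (rl e j) r1 (rl e j') r1' hrne
    obtain ⟨k'', hk'', k3, k4⟩ := c3 s (rl e j') r1' (rl e j) r1 (Ne.symm hrne)
    obtain ⟨i1, hi1, n1⟩ := F.nc j' hj' k' hk' k2
    obtain ⟨i2, hi2, n2⟩ := F.nc j hj k'' hk'' k4
    have b1 := F.cv j hj k' hk' k1 i1 hi1
    have b2 := F.cv j' hj' k'' hk'' k3 i2 hi2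
    have b3 := F.cv j hj 3 (by norm_num) (c1 s _ r1).1 0 (by omega)
    have b4 := F.cv j' hj' 3 (by norm_num) (c1 s _ r1').1 0 (by omega)
    have hab : 3 * j ≠ 3 * j' := by omega
    rcases hp M (3 * j) (3 * j') (3 * (7 * 0 + 3) + 2) (3 * (7 * i1 + k') + 2)
      (3 * (7 * i2 + k'') + 2) hab (cntn j hj) (cntn j' hj') (cntz 0 (by omega) 3 (by norm_num))
      (cntz i1 hi1 k' hk') (cntz i2 hi2 k'' hk'') b3 b4 b1 n1 n2 b2 with
      ⟨x0, x1, x2, x3, x4, h, m1, m2, m3⟩ | ⟨x0, x1, x2, x3, x4, h, m1, m2, m3⟩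
    · exact Or.inl ⟨x0, x1, x2, x3, x4, h, List.ne_nil_of_mem m1, List.ne_nil_of_mem m2,
        List.ne_nil_of_mem m3⟩
    · exact Or.inr ⟨x0, x1, x2, x3, x4, h, List.ne_nil_of_mem m1, List.ne_nil_of_mem m2,
        List.ne_nil_of_mem m3⟩
  -- counting
  have cnt5 : ∀ (a b : ℕ) (x0 x1 x2 x3 x4 : List ℕ), a ≠ b → M.count a = 2 → M.count b = 2 →
      M = x0 ++ a :: (x1 ++ b :: (x2 ++ a :: (x3 ++ b :: x4))) →
      (a ∉ x0 ∧ a ∉ x1 ∧ a ∉ x2 ∧ a ∉ x3 ∧ a ∉ x4) ∧
      (b ∉ x0 ∧ b ∉ x1 ∧ b ∉ x2 ∧ b ∉ x3 ∧ b ∉ x4) := by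
    intro a b x0 x1 x2 x3 x4 hab ha hb h
    rw [h] at ha hb
    have hba : ¬ (b = a) := fun h => hab h.symm
    simp only [List.count_append, List.count_cons, beq_iff_eq, hab, hba, if_true, if_false] at ha hb
    refine ⟨⟨?_, ?_, ?_, ?_, ?_⟩, ?_, ?_, ?_, ?_, ?_⟩ <;>
      (rw [← List.count_eq_zero]; omega)
  constructor
  · rintro A B x y h ⟨hx, hy⟩
    have hmem : ∀ c ∈ M, c % 3 = 0 → ∃ j < 3, c = 3 * j := by
      intro c hcm h0
      have h1 := F.pM.mem_iff.mp hcm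
      simp only [List.mem_cons, zz, List.mem_map] at h1
      rcases h1 with h1 | h1 | h1 | h1 | h1 | h1 | ⟨q, _, h1⟩
      · exact ⟨0, by norm_num, h1⟩
      · exact ⟨0, by norm_num, h1⟩
      · exact ⟨1, by norm_num, h1⟩
      · exact ⟨1, by norm_num, h1⟩
      · exact ⟨2, by norm_num, h1⟩
      · exact ⟨2, by norm_num, h1⟩
      · omega
    obtain ⟨j, hj, ej⟩ := hmem x (h ▸ by simp) hx
    obtain ⟨j', hj', ej'⟩ := hmem y (h ▸ by simp) hy
    by_cases hjj : j = j'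
    · subst hjj
      rw [ej, ej'] at h
      obtain ⟨a', b', c', hM, hz⟩ := F.cv j hj 3 (by norm_num) (c1 s _ (c4 e j hj).1).1 0 (by omega)
      have hcnt := cntn j hj
      have hcnt2 := cntn j hj
      rw [hM] at hcnt
      rw [h] at hcnt2
      simp only [List.count_append, List.count_cons_self] at hcnt hcnt2
      have q1 : 3 * j ∉ a' := by rw [← List.count_eq_zero]; omega
      have q2 : 3 * j ∉ b' := by rw [← List.count_eq_zero]; omega
      have q3 : 3 * j ∉ A := by rw [← List.count_eq_zero]; omega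
      have u1 := unq (3 * j) a' A _ _ q1 q3 (hM.symm.trans h)
      have u2 := unq (3 * j) b' [] c' B q2 (by simp) (by simpa using u1.2)
      rw [u2.1] at hz
      simp at hz
    · rw [ej, ej'] at h
      have hab : 3 * j ≠ 3 * j' := by omega
      rcases key j hj j' hj' hjj with ⟨x0, x1, x2, x3, x4, hM, n1, n2, n3⟩ |
        ⟨x0, x1, x2, x3, x4, hM, n1, n2, n3⟩
      · obtain ⟨⟨p0, p1, p2, p3, p4⟩, q0, q1, q2, q3, q4⟩ :=
          cnt5 (3 * j) (3 * j') x0 x1 x2 x3 x4 hab (cntn j hj) (cntn j' hj') hM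
        have aux : ∀ l : List ℕ, 3 * j ∉ l → 3 * j' ∉ l →
            ∀ q ∈ l, ¬ (q = 3 * j ∨ q = 3 * j') := by
          rintro l h1 h2 q hq (e1 | e1)
          · exact h1 (e1 ▸ hq)
          · exact h2 (e1 ▸ hq)
        exact noadj (fun q => q = 3 * j ∨ q = 3 * j') x0 x1 x2 x3 x4 _ _ _ _ (aux _ p0 q0)
          (aux _ p1 q1) (aux _ p2 q2) (aux _ p3 q3) (aux _ p4 q4) n1 n2 n3 A B _ _
          (Or.inl rfl) (Or.inr rfl) (h.symm.trans hM)
      · obtain ⟨⟨p0, p1, p2, p3, p4⟩, q0, q1, q2, q3, q4⟩ :=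
          cnt5 (3 * j') (3 * j) x0 x1 x2 x3 x4 (Ne.symm hab) (cntn j' hj') (cntn j hj) hM
        have aux : ∀ l : List ℕ, 3 * j' ∉ l → 3 * j ∉ l →
            ∀ q ∈ l, ¬ (q = 3 * j' ∨ q = 3 * j) := by
          rintro l h1 h2 q hq (e1 | e1)
          · exact h1 (e1 ▸ hq)
          · exact h2 (e1 ▸ hq)
        exact noadj (fun q => q = 3 * j' ∨ q = 3 * j) x0 x1 x2 x3 x4 _ _ _ _ (aux _ p0 q0)
          (aux _ p1 q1) (aux _ p2 q2) (aux _ p3 q3) (aux _ p4 q4) n1 n2 n3 A B _ _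
          (Or.inr rfl) (Or.inl rfl) (h.symm.trans hM)
  · intro j hj j' hj' hjj A G B h
    have hab : 3 * j ≠ 3 * j' := by omega
    have hcnt := cntn j hj
    rw [h] at hcnt
    simp only [List.count_append, List.count_cons_self] at hcnt
    have r1 : 3 * j ∉ A := by rw [← List.count_eq_zero]; omega
    have r2 : 3 * j ∉ G := by rw [← List.count_eq_zero]; omega
    rcases key j hj j' hj' hjj with ⟨x0, x1, x2, x3, x4, hM, -, -, -⟩ |
      ⟨x0, x1, x2, x3, x4, hM, -, -, -⟩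
    · obtain ⟨⟨p0, p1, p2, p3, p4⟩, q0, q1, q2, q3, q4⟩ :=
        cnt5 (3 * j) (3 * j') x0 x1 x2 x3 x4 hab (cntn j hj) (cntn j' hj') hM
      have u1 := unq (3 * j) A x0 _ _ r1 p0 (h.symm.trans hM)
      have u2 := unq (3 * j) G (x1 ++ 3 * j' :: x2) B (x3 ++ 3 * j' :: x4) r2
        (by simp only [List.mem_append, List.mem_cons, not_or]; exact ⟨p1, hab, p2⟩)
        (by rw [u1.2]; simp)
      rw [u2.1, List.count_append, List.count_cons_self, List.count_eq_zero.mpr q1,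
        List.count_eq_zero.mpr q2]
    · obtain ⟨⟨p0, p1, p2, p3, p4⟩, q0, q1, q2, q3, q4⟩ :=
        cnt5 (3 * j') (3 * j) x0 x1 x2 x3 x4 (Ne.symm hab) (cntn j' hj') (cntn j hj) hM
      have u1 := unq (3 * j) A (x0 ++ 3 * j' :: x1) (G ++ 3 * j :: B)
        (x2 ++ 3 * j' :: (x3 ++ 3 * j :: x4)) r1
        (by simp only [List.mem_append, List.mem_cons, not_or]; exact ⟨q0, hab, q1⟩)
        (by rw [← h, hM]; simp)
      have u2 := unq (3 * j) G (x2 ++ 3 * j' :: x3) B x4 r2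
        (by simp only [List.mem_append, List.mem_cons, not_or]; exact ⟨q2, hab, q3⟩)
        (by rw [u1.2]; simp)
      rw [u2.1, List.count_append, List.count_cons_self, List.count_eq_zero.mpr p2,
        List.count_eq_zero.mpr p3]

end Pool.Agent.MWI.H30

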